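import Pool.Graph.R_seed8.Y930.Bz.G
import Pool.Graph.R_pool_sql_team_seeded_47a924f7.Results.MP_047497_nt.AlgebraicWeights
import Pool.Graph.R_pool_sql_team_seeded_47a924f7.Results.MP_047497_nt.FourthMomentExact
import Pool.Agent.H312.Sub.Mom
import Pool.Agent.H312.Sub.Crit2

/-!
# The growth exponents of all moments of the Barnes multiple zeta-function

`ζ_r(s; a, w) = ∑ (a + m·w)^{-s}`, `d` the dimension of the `ℚ`-space spanned by the weights `w`. For real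
`p > 0` we consider the moments `∫_1^T |ζ_r(σ + it; a, w)|^p dt`, so that `p = 2k` is `I_k(σ, T)`. The bound
of Q1 is false for some weights. Let `1 + 2η` be the growth exponent of the mean square (`p = 2`) on the
line `σ > 1/2`. (The library has a Diophantine description of `η`.) We show for all positive weights
and all `a > 0` that the growth exponent of the moment with the exponent `p` is `1 + p η`

* for all `0 < p ≤ 2`,
* for all `0 < p ≤ 4`, for almost every `a`,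
* for ALL `p > 0` and all `a`, if `η ≥ 1/2`, that is, if the mean square grows at least like `T²`.

So `β_k(σ) = 1 + k (β_1(σ) - 1)` for all `k`, if `β_1(σ) ≥ 2`, for the growth exponents `β_k(σ)` of
`I_k(σ, T)`. This gives what is true for all weights in the place of Q1: if `d ≥ 2` then
`I_k(σ, T) = O(T^{1 + k (d - 1) + ε})` for all `k` and `σ ≥ r - d/2`, and for all `2 ≤ d ≤ r` the exponent
is the best possible, for all `k` at once. For weights with algebraic ratios, and in terms of the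
exponents of simultaneous approximation of the weights, the exponents are explicit.

Proof idea: `K(z) = exp(-a z) ∏ 1/(1 - exp(-w_j z))` is the inverse Mellin transform of `Γ(s) ζ_r(s)`.
We rotate the ray of integration to the angle `π/2 - 1/t` and bound the integral of `|K|` over it: the
set of the `ρ ≤ P` with `‖ρ w_j‖ ≤ z_j` for all `j` consists of short intervals which are far apart. This
gives a pointwise bound with the exponent `η`, if `η ≥ 1/2`. For small `p` a bound for the mean value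
(`p = 1`) bounds `|K(2 π i ρ + y)|`, and this gives the criterion for the mean square; the case `p < 1`
follows by iterating the convexity in `p`.
-/

set_option autoImplicit false

open Filter Topology Asymptotics MeasureTheory

namespace Pool.Agent.Results.MP_047497_nt.AllMoments

/-- The Dirichlet series `∑ (a + m₁ w₁ + ⋯ + m_r w_r)^{-s}` over `m ∈ ℕ^r` (with `0 ∈ ℕ`). -/
noncomputable def barnesSeries (r : ℕ) (a : ℝ) (w : Fin r → ℝ) (s : ℂ) : ℂ :=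
  ∑' m : Fin r → ℕ, ((a + ∑ i, (m i : ℝ) * w i : ℝ) : ℂ) ^ (-s)

/-- `Z` is the Barnes multiple zeta-function `ζ_r(·; a, w)`: it is holomorphic on the complex plane
except for possible simple poles at `1, …, r`, and for `Re s > r` it is given by the (summable)
Dirichlet series. -/
structure IsBarnesZeta (r : ℕ) (a : ℝ) (w : Fin r → ℝ) (Z : ℂ → ℂ) : Prop where
  holomorphic : ∀ s : ℂ, (∀ j : ℕ, 1 ≤ j → j ≤ r → s ≠ j) → DifferentiableAt ℂ Z s
  simple_pole : ∀ j : ℕ, 1 ≤ j → j ≤ r →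
    ∃ c : ℂ, Tendsto (fun s : ℂ => (s - j) * Z s) (𝓝[≠] (j : ℂ)) (𝓝 c)
  summable : ∀ s : ℂ, (r : ℝ) < s.re →
    Summable fun m : Fin r → ℕ => ((a + ∑ i, (m i : ℝ) * w i : ℝ) : ℂ) ^ (-s)
  series : ∀ s : ℂ, (r : ℝ) < s.re → Z s = barnesSeries r a w s

/-- The dimension `d` of the `ℚ`-vector space spanned by the weights. -/
noncomputable def weightDim (r : ℕ) (w : Fin r → ℝ) : ℕ :=
  Module.finrank ℚ (Submodule.span ℚ (Set.range w))

/-- The dimension of the `ℚ`-vector space spanned by the weights `w_i` with `i ∈ S`. -/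
noncomputable def subDim (r : ℕ) (w : Fin r → ℝ) (S : Finset (Fin r)) : ℕ :=
  Module.finrank ℚ (Submodule.span ℚ (w '' (S : Set (Fin r))))

/-- The moment `∫_1^T |Z(σ + it)|^p dt` with the real exponent `p` is `O(T^{β + ε})` for every
`ε > 0`. For `p = 2 k` this is the moment `I_k(σ, T)` of the question. -/
def MomentLE (Z : ℂ → ℂ) (p σ β : ℝ) : Prop :=
  ∀ ε : ℝ, 0 < ε → (fun T : ℝ => ∫ t in (1 : ℝ)..T, ‖Z (σ + t * Complex.I)‖ ^ p)
    =O[atTop] fun T : ℝ => T ^ (β + ε)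

/-- The weights are simultaneously approximable with the exponent `κ`: there are a constant `C` and
arbitrarily large real numbers `D` such that every `D w_j` is within `C D^{-κ}` of an integer. -/
def Approximable (r : ℕ) (w : Fin r → ℝ) (κ : ℝ) : Prop :=
  ∃ C : ℝ, ∀ X : ℝ, ∃ D : ℝ, X ≤ D ∧ ∀ j, ∃ N : ℤ, |D * w j - N| ≤ C * D ^ (-κ)

theorem exists_zeta (r : ℕ) (a : ℝ) (w : Fin r → ℝ) (ha : 0 < a) (hw : ∀ i, 0 < w i) :
    ∃ Z : ℂ → ℂ, IsBarnesZeta r a w Z := by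
  obtain ⟨c, hc⟩ := Pool.Agent.H131R5.BZ.exists_taylor a hw
  refine ⟨Pool.Agent.H131R5.BZ.FF a w c, ?_, ?_, ?_, ?_⟩
  · exact fun s hs => Pool.Agent.H131R5.BZ.FF_diff ha hw hc hs
  · exact fun j h1 h2 => Pool.Agent.Y930.Bz.FF_pole ha hw hc j h1 h2
  · exact fun s hs => (Pool.Agent.H131R5.BZ.FF_series ha hw hc hs).summable
  · exact fun s hs => (Pool.Agent.H131R5.BZ.FF_series ha hw hc hs).tsum_eq.symm

theorem cont {r : ℕ} {a : ℝ} {w : Fin r → ℝ} {Z : ℂ → ℂ} (hZ : IsBarnesZeta r a w Z) :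
    Pool.Agent.H312.Sub.Cont r a w Z :=
  ⟨fun s hs => hZ.holomorphic s hs, fun s hs => hZ.series s hs⟩

lemma approximable_iff (r : ℕ) (w : Fin r → ℝ) (κ : ℝ) :
    Approximable r w κ ↔ Pool.Agent.H312.Barnes.SimApprox w Finset.univ κ := by
  unfold Approximable Pool.Agent.H312.Barnes.SimApprox
  simp

lemma weightDim_le (r : ℕ) (w : Fin r → ℝ) : weightDim r w ≤ r := by
  have := finrank_range_le_card (R := ℚ) w
  simpa [weightDim, Set.finrank] using this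

lemma momentLE_iff (Z : ℂ → ℂ) (p σ β : ℝ) :
    MomentLE Z p σ β ↔ Pool.Agent.H312.Sub.Mb Z p σ β := Iff.rfl

lemma momentLE_mono {Z : ℂ → ℂ} {p σ β β' : ℝ} (h : MomentLE Z p σ β) (hβ : β ≤ β') :
    MomentLE Z p σ β' :=
  Pool.Agent.H312.Sub.Mb.mono h hβ

lemma momentLE_two (Z : ℂ → ℂ) (k : ℕ) (σ β : ℝ) : MomentLE Z (2 * k) σ β ↔ ∀ ε : ℝ, 0 < ε →
    (fun T : ℝ => ∫ t in (1 : ℝ)..T, ‖Z (σ + t * Complex.I)‖ ^ (2 * k))
      =O[atTop] fun T : ℝ => T ^ (β + ε) := by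
  have h := Pool.Agent.H312.Sub.mb_nat (Z := Z) (n := 2 * k) (σ := σ) (β := β)
  rw [← h, momentLE_iff]
  push_cast
  rfl

theorem main {r : ℕ} (hr : 1 ≤ r) {w : Fin r → ℝ} (hw : ∀ i, 0 < w i) {a : ℝ} (ha : 0 < a)
    {Z : ℂ → ℂ} (hZ : IsBarnesZeta r a w Z) {σ η p : ℝ} (hσ : 1 / 2 < σ) (hη : 0 ≤ η) (hp : 0 < p)
    (hpη : p ≤ 2 ∨ 1 / 2 ≤ η) : MomentLE Z p σ (1 + p * η) ↔ MomentLE Z 2 σ (1 + 2 * η) := by
  rw [momentLE_iff, momentLE_iff, Pool.Agent.H312.Sub.mb_iff hr ha hw (cont hZ) hσ hη hp hpη,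
    Pool.Agent.H312.Sub.mb_iff hr ha hw (cont hZ) hσ hη two_pos (Or.inl le_rfl)]

theorem universal {r : ℕ} (hr : 1 ≤ r) {w : Fin r → ℝ} (hw : ∀ i, 0 < w i) {a : ℝ} (ha : 0 < a)
    {Z : ℂ → ℂ} (hZ : IsBarnesZeta r a w Z) {σ p : ℝ} (hσ : 0 < σ) (hσr : σ ≤ r - 1) (hp : 0 < p) :
    MomentLE Z p σ (1 + p * (r - σ - 1 / 2)) :=
  Pool.Agent.H312.Sub.mb_of_pt (cont hZ).hol (by linarith)
    (Pool.Agent.H312.Sub.pt_univ hr ha hw (cont hZ) hσ hσr) hp

theorem strip {r : ℕ} {w : Fin r → ℝ} (hw : ∀ i, 0 < w i) {a : ℝ} (ha : 0 < a)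
    {Z : ℂ → ℂ} (hZ : IsBarnesZeta r a w Z) (hd : 2 ≤ weightDim r w) {σ p : ℝ}
    (hσ : (r : ℝ) - (weightDim r w : ℝ) / 2 ≤ σ) (hp : 0 < p) :
    MomentLE Z p σ (1 + p * (((weightDim r w : ℝ) - 1) / 2)) := by
  have hdr := weightDim_le r w
  have hdr' : (weightDim r w : ℝ) ≤ r := by exact_mod_cast hdr
  have hd' : (2 : ℝ) ≤ weightDim r w := by exact_mod_cast hd
  have h1 := Pool.Agent.H312.Sub.pt_univ (by omega : 0 < r) ha hw (cont hZ)
    (σ := (r : ℝ) - (weightDim r w : ℝ) / 2) (by linarith) (by linarith)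
  have e : (r : ℝ) - ((r : ℝ) - (weightDim r w : ℝ) / 2) - 1 / 2 = ((weightDim r w : ℝ) - 1) / 2 := by
    ring
  rw [e] at h1
  refine Pool.Agent.H312.Sub.mb_of_pt (cont hZ).hol (by linarith) (fun ε hε => ?_) hp
  obtain ⟨C, hC⟩ := Pool.Agent.H312.Sub.pt_strip ha hw (cont hZ) (by linarith) (by linarith) h1 hε σ
  exact ⟨C, fun t ht => hC σ t hσ le_rfl ht⟩

theorem simL_approx {r : ℕ} {w : Fin r → ℝ} (h : Pool.Agent.Y930.Bz.SimL w) (κ : ℝ) :
    Approximable r w κ := by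
  refine ⟨1, fun X => ?_⟩
  obtain ⟨D, hD, hN⟩ := h (max (max 1 ⌈X⌉₊) ⌈κ⌉₊)
  have hD1 : 1 ≤ D := (le_max_left _ _).trans ((le_max_left _ _).trans hD)
  have hDX : X ≤ D := (Nat.le_ceil X).trans
    (Nat.cast_le.2 ((le_max_right _ _).trans ((le_max_left _ _).trans hD)))
  have hD1' : (1 : ℝ) ≤ D := by exact_mod_cast hD1
  have hD0 : (0 : ℝ) < D := by linarith
  refine ⟨D, hDX, fun j => ?_⟩
  obtain ⟨N, hN⟩ := hN j
  refine ⟨N, hN.trans ?_⟩
  rw [one_mul, Real.rpow_neg hD0.le, one_div]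
  refine inv_anti₀ (Real.rpow_pos_of_pos hD0 _) ?_
  rw [← Real.rpow_natCast]
  refine Real.rpow_le_rpow_of_exponent_le hD1' ?_
  exact (Nat.le_ceil κ).trans (Nat.cast_le.2 (le_max_right _ _))

theorem sharp {r : ℕ} (hr : 1 ≤ r) {w : Fin r → ℝ} (hw : ∀ i, 0 < w i)
    (hA : ∀ κ : ℝ, Approximable r w κ) {a : ℝ} (ha : 0 < a) {Z : ℂ → ℂ} (hZ : IsBarnesZeta r a w Z)
    {σ p β : ℝ} (hσ : 1 / 2 < σ) (hσr : σ ≤ r - 1) (hp : 0 < p) :
    MomentLE Z p σ β ↔ 1 + p * (r - σ - 1 / 2) ≤ β := by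
  refine ⟨fun h => ?_, fun h => momentLE_mono (universal hr hw ha hZ (by linarith) hσr hp) h⟩
  have key : ∀ η : ℝ, 0 ≤ η → MomentLE Z p σ (1 + p * η) → r - σ - 1 / 2 ≤ η := by
    intro η hη h
    refine le_of_forall_pos_le_add fun δ hδ => ?_
    set κ : ℝ := max 1 ((r - σ) / δ) with hκ
    have hκ1 : 1 ≤ κ := le_max_left _ _
    have hκ2 : (r - σ) / δ ≤ κ := le_max_right _ _
    rw [div_le_iff₀ hδ] at hκ2
    have hκ1' : 0 < 1 + κ := by linarith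
    have h2 := Pool.Agent.H312.Sub.dio_of_mb hr ha hw (cont hZ) hσ hη hp h
      (by positivity : 0 < δ / (1 + κ))
    have h3 := Pool.Agent.H312.Barnes.approx_dio (by linarith : 0 < κ)
      ((approximable_iff r w κ).1 (hA κ)) h2
    have e : (1 + κ) * (1 + 2 * η + δ / (1 + κ)) = (1 + κ) * (1 + 2 * η) + δ := by
      field_simp
    rw [e] at h3
    by_contra hcon
    rw [not_le] at hcon
    nlinarith
  rcases le_total 1 β with hβ | hβ
  · have h1 := key ((β - 1) / p) (div_nonneg (by linarith) hp.le) (by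
      have e : 1 + p * ((β - 1) / p) = β := by
        field_simp
        ring
      rw [e]
      exact h)
    have h2 := mul_le_mul_of_nonneg_left h1 hp.le
    have e : p * ((β - 1) / p) = β - 1 := by field_simp
    rw [e] at h2
    linarith
  · have h1 := key 0 le_rfl (momentLE_mono h (by linarith))
    exfalso
    linarith

theorem approx {r : ℕ} (hr : 1 ≤ r) {w : Fin r → ℝ} (hw : ∀ i, 0 < w i) {κ₁ : ℝ}
    (hκ₁ : 0 < κ₁) (hA : Approximable r w κ₁) {a : ℝ} (ha : 0 < a) {Z : ℂ → ℂ}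
    (hZ : IsBarnesZeta r a w Z) {σ η p : ℝ} (hσ : 1 / 2 < σ) (hσ1 : r - 1 - κ₁ ≤ σ) (hσr : σ ≤ r)
    (hη : 0 ≤ η) (hp : 0 < p) (hpη : p ≤ 2 ∨ 1 / 2 ≤ η) :
    MomentLE Z p σ (1 + p * η) ↔
      ∀ κ : ℝ, 0 < κ → Approximable r w κ → κ * (r - σ) / (1 + κ) - 1 / 2 ≤ η := by
  rw [momentLE_iff, Pool.Agent.H312.Sub.mb_iff hr ha hw (cont hZ) hσ hη hp hpη,
    Pool.Agent.H312.Sub.dio_approx_iff hr hη hκ₁
    ((approximable_iff r w κ₁).1 hA) (by linarith) (by linarith)]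
  constructor
  · intro h κ hκ hκA
    have h2 := h κ hκ ((approximable_iff r w κ).1 hκA)
    have hκ1 : 0 < 1 + κ := by linarith
    have h3 : κ * (r - σ) / (1 + κ) ≤ η + 1 / 2 := by
      rw [div_le_iff₀ hκ1]
      linarith
    linarith
  · intro h κ hκ hκA
    have h2 := h κ hκ ((approximable_iff r w κ).2 hκA)
    have hκ1 : 0 < 1 + κ := by linarith
    have h3 : κ * (r - σ) / (1 + κ) ≤ η + 1 / 2 := by linarith
    rw [div_le_iff₀ hκ1] at h3
    linarith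

theorem dirichlet {r : ℕ} {w : Fin r → ℝ} (hw : ∀ i, 0 < w i) (hd : 2 ≤ weightDim r w) :
    Approximable r w (1 / ((weightDim r w : ℝ) - 1)) := by
  have hd' : (2 : ℝ) ≤ weightDim r w := by exact_mod_cast hd
  have h0 : 0 < (weightDim r w : ℝ) - 1 := by linarith
  rw [approximable_iff]
  refine Pool.Agent.H312.Barnes.simApprox_dim w hw (by positivity) (le_of_eq ?_)
  change 1 / ((weightDim r w : ℝ) - 1) * ((weightDim r w : ℝ) - 1) = 1
  field_simp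

theorem algebraic {r : ℕ} (hr : 1 ≤ r) {w : Fin r → ℝ} (hw : ∀ i, 0 < w i)
    (halg : ∀ i j, IsAlgebraic ℚ (w i / w j)) {a : ℝ} (ha : 0 < a)
    {Z : ℂ → ℂ} (hZ : IsBarnesZeta r a w Z) {σ η p : ℝ} (hσ : 1 / 2 < σ) (hη : 0 ≤ η) (hp : 0 < p)
    (hpη : p ≤ 2 ∨ 1 / 2 ≤ η) : MomentLE Z p σ (1 + p * η) ↔ ∀ S : Finset (Fin r), S.Nonempty →
      2 * ((S.card : ℝ) - σ) ≤ (1 + 2 * η) * subDim r w S := by
  rw [main hr hw ha hZ hσ hη hp hpη]
  have hZ' : Pool.Agent.Results.MP_047497_nt.AlgebraicWeights.IsBarnesZeta r a w Z :=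
    ⟨hZ.holomorphic, hZ.simple_pole, hZ.summable, hZ.series⟩
  have h1 := (Pool.Agent.Results.MP_047497_nt.AlgebraicWeights.result.2 r a w ha hw Z hZ').2.2 halg
  have h2 := h1.1 σ (1 + 2 * η) hσ.le (by linarith)
  have h3 := momentLE_two Z 1 σ (1 + 2 * η)
  rw [Nat.cast_one, mul_one] at h3
  exact h3.trans h2

theorem almost_all {r : ℕ} (hr : 1 ≤ r) {w : Fin r → ℝ} (hw : ∀ i, 0 < w i) :
    ∀ᵐ a : ℝ, 0 < a → ∀ Z : ℂ → ℂ, IsBarnesZeta r a w Z → ∀ σ η p : ℝ, 1 / 2 < σ → 0 ≤ η → 0 < p →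
      p ≤ 4 → (MomentLE Z p σ (1 + p * η) ↔ MomentLE Z 2 σ (1 + 2 * η)) := by
  filter_upwards [Pool.Agent.Results.MP_047497_nt.FourthMomentExact.result.2.1 r w hr hw] with a ha
    ha0 Z hZ σ η p hσ hη hp hp4
  have hZ' : Pool.Agent.Results.MP_047497_nt.FourthMomentExact.IsBarnesZeta r a w Z :=
    ⟨hZ.holomorphic, hZ.simple_pole, hZ.summable, hZ.series⟩
  have h1 := ((ha ha0 Z hZ').1 σ (1 + 2 * η) hσ.le (by linarith)).2
  have h3 := momentLE_two Z 1 σ (1 + 2 * η)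
  rw [Nat.cast_one, mul_one] at h3
  have h4 := momentLE_two Z 2 σ (2 * (1 + 2 * η) - 1)
  have e4 : 2 * ((2 : ℕ) : ℝ) = 4 := by norm_num
  have e5 : 2 * (1 + 2 * η) - 1 = 1 + 4 * η := by ring
  rw [e4, e5] at h4
  rw [e5] at h1
  rcases le_total p 2 with h2 | h2
  · exact main hr hw ha0 hZ hσ hη hp (Or.inl h2)
  · constructor
    · exact fun h => Pool.Agent.H312.Sub.mb_lower (cont hZ).hol two_pos h2 h
    · intro h
      exact Pool.Agent.H312.Sub.mb_lower (cont hZ).hol hp hp4 (h4.2 (h1.2 (h3.1 h)))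

/-- Let `r ≥ 1`, let `w` be positive weights, `d` their dimension. (1) Let `a > 0`, `σ > 1/2`, `η ≥ 0` and
`p > 0` with `p ≤ 2` or `η ≥ 1/2`. Then the moment with the exponent `p` on the line `σ` is
`O(T^{1 + p η + ε})` for all `ε > 0` if and only if the mean square (`p = 2`) is `O(T^{1 + 2 η + ε})` for
all `ε > 0`. (2) For almost every `a` this holds for all `σ > 1/2`, `η ≥ 0` and `0 < p ≤ 4`. (3) For all
`a > 0`, `p > 0` and `0 < σ ≤ r - 1` the moment is `O(T^{1 + p (r - σ - 1/2) + ε})`, and for `σ ≥ r - d/2`,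
`d ≥ 2`, it is `O(T^{1 + p (d - 1)/2 + ε})`. (4) If the ratios `w_i / w_j` are algebraic, then the bounds
in (1) hold if and only if `2 (|S| - σ) ≤ (1 + 2η) dim span {w_i : i ∈ S}` for all nonempty `S`. (5) If
`w` is simultaneously approximable with the exponent `κ₁ > 0` and `r - 1 - κ₁ ≤ σ ≤ r`, then they hold
if and only if `κ (r - σ)/(1 + κ) - 1/2 ≤ η` for all exponents `κ > 0` of simultaneous approximation;
`κ₁ = 1/(d - 1)` is admissible, if `d ≥ 2`. (6) For `2 ≤ d ≤ r` there are positive weights of dimension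
`d` such that for all `a > 0`, `1/2 < σ ≤ r - 1`, `p > 0` and `β` the moment is `O(T^{β + ε})` for all
`ε > 0` if and only if `β ≥ 1 + p (r - σ - 1/2)`. So the exponents in (3) are the best possible; at
`σ = r - d/2` both are `1 + p (d - 1)/2`. (7) The Barnes multiple zeta-function exists. -/
theorem result :
    (∀ (r : ℕ) (w : Fin r → ℝ), 1 ≤ r → (∀ i, 0 < w i) →
      (∀ (a : ℝ) (Z : ℂ → ℂ), 0 < a → IsBarnesZeta r a w Z →
        (∀ σ η p : ℝ, 1 / 2 < σ → 0 ≤ η → 0 < p → (p ≤ 2 ∨ 1 / 2 ≤ η) →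
          (MomentLE Z p σ (1 + p * η) ↔ MomentLE Z 2 σ (1 + 2 * η))) ∧
        (∀ σ p : ℝ, 0 < σ → σ ≤ r - 1 → 0 < p → MomentLE Z p σ (1 + p * (r - σ - 1 / 2))) ∧
        (2 ≤ weightDim r w → ∀ σ p : ℝ, (r : ℝ) - (weightDim r w : ℝ) / 2 ≤ σ → 0 < p →
          MomentLE Z p σ (1 + p * (((weightDim r w : ℝ) - 1) / 2))) ∧
        ((∀ i j, IsAlgebraic ℚ (w i / w j)) → ∀ σ η p : ℝ, 1 / 2 < σ → 0 ≤ η → 0 < p →
          (p ≤ 2 ∨ 1 / 2 ≤ η) → (MomentLE Z p σ (1 + p * η) ↔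
            ∀ S : Finset (Fin r), S.Nonempty →
              2 * ((S.card : ℝ) - σ) ≤ (1 + 2 * η) * subDim r w S)) ∧
        (∀ κ₁ : ℝ, 0 < κ₁ → Approximable r w κ₁ → ∀ σ η p : ℝ, 1 / 2 < σ → r - 1 - κ₁ ≤ σ →
          σ ≤ r → 0 ≤ η → 0 < p → (p ≤ 2 ∨ 1 / 2 ≤ η) → (MomentLE Z p σ (1 + p * η) ↔
            ∀ κ : ℝ, 0 < κ → Approximable r w κ → κ * (r - σ) / (1 + κ) - 1 / 2 ≤ η))) ∧
      (∀ᵐ a : ℝ, 0 < a → ∀ Z : ℂ → ℂ, IsBarnesZeta r a w Z → ∀ σ η p : ℝ, 1 / 2 < σ → 0 ≤ η →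
        0 < p → p ≤ 4 → (MomentLE Z p σ (1 + p * η) ↔ MomentLE Z 2 σ (1 + 2 * η))) ∧
      (2 ≤ weightDim r w → Approximable r w (1 / ((weightDim r w : ℝ) - 1)))) ∧
    (∀ r d : ℕ, 2 ≤ d → d ≤ r → ∃ w : Fin r → ℝ, (∀ i, 0 < w i) ∧ weightDim r w = d ∧
      ∀ (a : ℝ) (Z : ℂ → ℂ), 0 < a → IsBarnesZeta r a w Z → ∀ σ p β : ℝ, 1 / 2 < σ → σ ≤ r - 1 →
        0 < p → (MomentLE Z p σ β ↔ 1 + p * (r - σ - 1 / 2) ≤ β)) ∧
    (∀ (r : ℕ) (a : ℝ) (w : Fin r → ℝ), 0 < a → (∀ i, 0 < w i) →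
      ∃ Z : ℂ → ℂ, IsBarnesZeta r a w Z) := by
  refine ⟨fun r w hr hw => ⟨fun a Z ha hZ => ⟨fun σ η p hσ hη hp hpη => main hr hw ha hZ hσ hη hp hpη,
    fun σ p hσ hσr hp => universal hr hw ha hZ hσ hσr hp,
    fun hd σ p hσ hp => strip hw ha hZ hd hσ hp,
    fun halg σ η p hσ hη hp hpη => algebraic hr hw halg ha hZ hσ hη hp hpη,
    fun κ₁ hκ₁ hA σ η p hσ hσ1 hσr hη hp hpη => approx hr hw hκ₁ hA ha hZ hσ hσ1 hσr hη hp hpη⟩,
    almost_all hr hw, fun hd => dirichlet hw hd⟩, fun r d hd hdr => ?_, exists_zeta⟩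
  obtain ⟨w, hw, hdim, hL⟩ := Pool.Agent.Y930.Bz.exists_weights (by omega : 1 ≤ d) hdr
  exact ⟨w, hw, hdim, fun a Z ha hZ σ p β hσ hσr hp =>
    sharp (by omega) hw (simL_approx hL) ha hZ hσ hσr hp⟩

end Pool.Agent.Results.MP_047497_nt.AllMoments
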