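import Pool.Agent.H312.Ex.Crit

/-!
# The exact order of magnitude of the mean square of the Barnes multiple zeta-function

Let `‖x‖` be the distance from `x` to the nearest integer. For all `r ≥ 1`, all positive weights `w`, all
`a > 0` and `σ > 0` we determine the order of magnitude of the mean square of
`ζ_r(s; a, w) = ∑ (a + m·w)^{-s}`, without any loss: with

  `F(σ, T) = ∫_1^T ρ^{2σ-1} ∏_j max(‖ρ w_j‖, ρ/T)^{-2} dρ`

the ratio of the two sides is bounded above and below as `T → ∞` in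

* `∫_1^T t^{2σ-1} |ζ_r(σ + it; a, w)|² dt ≍ F(σ, T)` for all `σ > 0` (for `σ = 1/2` this is `I_1(1/2, T)`),
* `I_1(σ, T) = ∫_1^T |ζ_r(σ + it; a, w)|² dt ≍ ∫_1^T τ^{-2σ} F(σ, τ) dτ` for all `σ > 1/2`,

and so, for `σ > 1/2`, `θ > 0`, `β ≥ 0`, `I_1(σ, T) = O(T^θ (log T)^β)` holds if and only if
`F(σ, T) = O(T^{2σ-1+θ} (log T)^β)`. The right sides do not depend on `a`. The range `σ ≥ 1/2` contains the
whole range `σ ≥ r - d/2` of the question.

Proof idea: `K(z) = exp(-a z) ∏ 1/(1 - exp(-w_j z))` minus an elementary function is the inverse Mellin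
transform of `Γ(s) (ζ_r(s) - R(s))` with a rational function `R`, so that by Plancherel's theorem on the
ray with the angle `π/2 - 1/T` the mean square of `ζ_r` with the weight `t^{2σ-1} e^{-2t/T}` is comparable
to the weighted square integral of `K` over the ray, up to errors which are of smaller order since
`F(σ, T) ≫ T^{2σ}`. On the ray `|K|²` is comparable to `∏_j max(‖ρ w_j‖, ρ/T)^{-2}` for `ρ ≤ T`. The
resonance integral satisfies `F(σ, 2T) ≤ C F(σ, T)`, and this allows to pass from the smooth weight to the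
sharp cut-off in the lower bound: the tail `t > BT` is at most `e^{-B} C F(σ, T)`.
-/

set_option autoImplicit false

open Filter Topology Asymptotics MeasureTheory

namespace Pool.Agent.Results.MP_047497_nt.ExactOrder

/-- The Dirichlet series `∑ (a + m₁ w₁ + ⋯ + m_r w_r)^{-s}` over `m ∈ ℕ^r` (with `0 ∈ ℕ`). -/
noncomputable def barnesSeries (r : ℕ) (a : ℝ) (w : Fin r → ℝ) (s : ℂ) : ℂ :=
  ∑' m : Fin r → ℕ, ((a + ∑ i, (m i : ℝ) * w i : ℝ) : ℂ) ^ (-s)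

/-- `Z` is the Barnes multiple zeta-function `ζ_r(·; a, w)`: it is holomorphic on the complex plane
except for possible simple poles at `1, …, r`, and for `Re s > r` it is given by the (summable)
Dirichlet series. -/
structure IsBarnesZeta (r : ℕ) (a : ℝ) (w : Fin r → ℝ) (Z : ℂ → ℂ) : Prop where
  holomorphic : ∀ s : ℂ, (∀ j : ℕ, 1 ≤ j → j ≤ r → s ≠ j) → DifferentiableAt ℂ Z s
  simple_pole : ∀ j : ℕ, 1 ≤ j → j ≤ r →
    ∃ c : ℂ, Tendsto (fun s : ℂ => (s - j) * Z s) (𝓝[≠] (j : ℂ)) (𝓝 c)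
  summable : ∀ s : ℂ, (r : ℝ) < s.re →
    Summable fun m : Fin r → ℕ => ((a + ∑ i, (m i : ℝ) * w i : ℝ) : ℂ) ^ (-s)
  series : ∀ s : ℂ, (r : ℝ) < s.re → Z s = barnesSeries r a w s

/-- The distance to the nearest integer. -/
noncomputable def distInt (x : ℝ) : ℝ := |x - round x|

/-- The resonance integral `F(σ, T) = ∫_1^T ρ^{2σ-1} ∏_j max(‖ρ w_j‖, ρ/T)^{-2} dρ`. -/
noncomputable def resonanceIntegral (r : ℕ) (w : Fin r → ℝ) (σ T : ℝ) : ℝ :=
  ∫ ρ in (1 : ℝ)..T, ρ ^ (2 * σ - 1) * ∏ j, ((max (distInt (ρ * w j)) (ρ / T)) ^ 2)⁻¹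

/-- The mean square `I_1(σ, T) = ∫_1^T |Z(σ + it)|² dt`. -/
noncomputable def meanSquare (Z : ℂ → ℂ) (σ T : ℝ) : ℝ :=
  ∫ t in (1 : ℝ)..T, ‖Z ((σ : ℂ) + (t : ℂ) * Complex.I)‖ ^ 2

/-- The weighted mean square `∫_1^T t^{2σ-1} |Z(σ + it)|² dt`. -/
noncomputable def weightedMeanSquare (Z : ℂ → ℂ) (σ T : ℝ) : ℝ :=
  ∫ t in (1 : ℝ)..T, t ^ (2 * σ - 1) * ‖Z ((σ : ℂ) + (t : ℂ) * Complex.I)‖ ^ 2

theorem exists_zeta (r : ℕ) (a : ℝ) (w : Fin r → ℝ) (ha : 0 < a) (hw : ∀ i, 0 < w i) :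
    ∃ Z : ℂ → ℂ, IsBarnesZeta r a w Z := by
  obtain ⟨c, hc⟩ := Pool.Agent.H131R5.BZ.exists_taylor a hw
  refine ⟨Pool.Agent.H131R5.BZ.FF a w c, ?_, ?_, ?_, ?_⟩
  · exact fun s hs => Pool.Agent.H131R5.BZ.FF_diff ha hw hc hs
  · exact fun j h1 h2 => Pool.Agent.Y930.Bz.FF_pole ha hw hc j h1 h2
  · exact fun s hs => (Pool.Agent.H131R5.BZ.FF_series ha hw hc hs).summable
  · exact fun s hs => (Pool.Agent.H131R5.BZ.FF_series ha hw hc hs).tsum_eq.symm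

/-- **The exact order of magnitude of the mean square.** For all `r ≥ 1`, all positive weights, all
`a > 0`: the function `ζ_r(·; a, w)` exists, and it satisfies

1. `∫_1^T t^{2σ-1} |ζ_r(σ+it)|² dt ≍ F(σ, T)` as `T → ∞`, for every `σ > 0`;
2. `I_1(1/2, T) ≍ F(1/2, T)`, and `I_1(σ, T) ≍ ∫_1^T τ^{-2σ} F(σ, τ) dτ` for every `σ > 1/2`;
3. for all `σ > 1/2`, `θ > 0`, `β ≥ 0`: `I_1(σ, T) = O(T^θ (log T)^β)` if and only if
   `F(σ, T) = O(T^{2σ-1+θ} (log T)^β)`;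

here `F(σ, T) = ∫_1^T ρ^{2σ-1} ∏_j max(‖ρ w_j‖, ρ/T)^{-2} dρ`. -/
theorem result (r : ℕ) (_hr : 1 ≤ r) (w : Fin r → ℝ) (hw : ∀ i, 0 < w i) (a : ℝ) (ha : 0 < a) :
    (∃ Z : ℂ → ℂ, IsBarnesZeta r a w Z) ∧ ∀ Z : ℂ → ℂ, IsBarnesZeta r a w Z →
      (∀ σ : ℝ, 0 < σ →
        (fun T : ℝ => weightedMeanSquare Z σ T) =Θ[atTop] fun T : ℝ => resonanceIntegral r w σ T) ∧
      ((fun T : ℝ => meanSquare Z (1 / 2) T) =Θ[atTop]
        fun T : ℝ => resonanceIntegral r w (1 / 2) T) ∧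
      (∀ σ : ℝ, 1 / 2 < σ →
        (fun T : ℝ => meanSquare Z σ T) =Θ[atTop]
          fun T : ℝ => ∫ τ in (1 : ℝ)..T, τ ^ (-(2 * σ)) * resonanceIntegral r w σ τ) ∧
      (∀ σ θ β : ℝ, 1 / 2 < σ → 0 < θ → 0 ≤ β →
        ((fun T : ℝ => meanSquare Z σ T) =O[atTop] (fun T : ℝ => T ^ θ * (Real.log T) ^ β) ↔
          (fun T : ℝ => resonanceIntegral r w σ T) =O[atTop]
            fun T : ℝ => T ^ (2 * σ - 1 + θ) * (Real.log T) ^ β)) := by
  refine ⟨exists_zeta r a w ha hw, fun Z hZ => ?_⟩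
  have h1 : ∀ s ∈ Pool.Agent.Y930.Bz.Om r, DifferentiableAt ℂ Z s := fun s hs =>
    hZ.holomorphic s hs
  have h2 : ∀ s : ℂ, (r : ℝ) < s.re → Z s =
      ∑' m : Fin r → ℕ, ((Pool.Agent.H131R5.BZ.lam a w m : ℝ) : ℂ) ^ (-s) := fun s hs =>
    hZ.series s hs
  have hweighted : ∀ σ : ℝ, 0 < σ →
      (fun T : ℝ => weightedMeanSquare Z σ T) =Θ[atTop] fun T : ℝ => resonanceIntegral r w σ T :=
    fun σ hσ => Pool.Agent.H312.Ex.theta_w ha hw h1 h2 hσ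
  refine ⟨hweighted, ?_, fun σ hσ => Pool.Agent.H312.Ex.theta_i ha hw h1 h2 hσ,
    fun σ θ β hσ hθ hβ => Pool.Agent.H312.Ex.crit ha hw h1 h2 hσ hθ hβ⟩
  have h3 := hweighted (1 / 2) (by norm_num)
  have h4 : (fun T : ℝ => weightedMeanSquare Z (1 / 2) T) = fun T : ℝ => meanSquare Z (1 / 2) T := by
    funext T
    unfold weightedMeanSquare meanSquare
    refine intervalIntegral.integral_congr fun t _ => ?_
    have h5 : (2 : ℝ) * (1 / 2) - 1 = 0 := by norm_num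
    show t ^ ((2 : ℝ) * (1 / 2) - 1) * _ = _
    rw [h5, Real.rpow_zero, one_mul]
  rwa [h4] at h3

end Pool.Agent.Results.MP_047497_nt.ExactOrder
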