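import Pool.Agent.H312.Eq.Gmv
import Pool.Graph.R_pool_sql_team_seeded_47a924f7.Results.MP_047497_nt.AlgebraicWeights

/-!
# The mean value theorem for the Barnes multiple zeta-function, for all weights

Let `d` be the dimension of the `ℚ`-span of the weights, `k = 1`, and let `c(σ) = ∑ (a + m·w)^{-2σ}` be the sum
over all pairs `(m, m')` with `m·w = m'·w`. We prove for all `r ≥ 1` and all weights `w > 0`:

* For every `σ₀ ≥ r - d/2` the following are equivalent: `I_1(σ₀, T) = O(T^{1+ε})` for one shift `a > 0` and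
  all `ε > 0`; `I_1(σ, T) = O(T^{1+ε})` for all `a > 0`, `σ ≥ σ₀` and `ε > 0`; `I_1(σ, T) ~ c(σ) T` (with
  `c(σ) < ∞`) for all `a > 0` and `σ > σ₀`. So for every `w` there is an abscissa `σ_c ≥ r - d/2`, such that the
  asymptotic formula holds for all `σ > σ_c`, and for `r - d/2 ≤ σ < σ_c` we have `I_1(σ, T) ≠ O(T^{1+δ})` for
  some `δ > 0`.
* `σ_c = r - d/2` holds if and only if `w` satisfies Q1 for `k = 1` (the bound `O(T^{1+ε})` for all
  `σ ≥ r - d/2`); and then `T log T ≪ I_1(r - d/2, T)`.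
* This is the case for all weights with algebraic ratios `w_i / w_j`, and for all weights which have the same
  rational span as `v`, for almost every `v ∈ ℝ^d`. For the latter also `I_1(r - d/2, T) ≪ T (log T)^{2+δ}`
  for all `δ > 0`.

So the factor `T^ε` in Q1 for `k = 1` is never needed for `σ > r - d/2`, and always needed at `σ = r - d/2`.

Proof idea: the mean square is of the exact order `∫_1^T τ^{-2σ} F(σ, τ) dτ` with the resonance integral
`F(σ, T) = ∫_1^T ρ^{2σ-1} ∏_j max(‖ρ w_j‖, ρ/T)^{-2} dρ`, for all weights. Let `I_1(σ₀, T) = O(T^{1+ε})`, so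
`F(σ₀, T) = O(T^{2σ₀+ε})`, and `σ > σ₀`.

* Small `ρ`: the contribution of `ρ ≤ T^{1-c}` to `F(σ, T)` is small by the assumption.
* Large `ρ`: for `R ≤ ρ ≤ 2R` the product is compared with the square of the absolute value of the generating
  function `K(z) = ∑_m exp(-(m·w) z)` at `z = x + 2πiρ`, `x = R/T`. This is a function of `ρ` with nonnegative
  Fourier coefficients, so (by the positivity of the Fejér kernel) its mean value over `[R, 2R]` is at most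
  `16` times the mean value over `[0, R']` for every `R' ≤ R`. For `R' = x^{-2r}` the latter is
  `O(x^{-2σ₀-ε'})` by the assumption. So each dyadic block with `R ≥ T^{1-c}` is `O(T^{2σ} (R/T)^{2σ-2σ₀-ε'})`,
  and the sum over these blocks is `O(T^{2σ})`, with the main part from the last blocks.
* The asymptotic formula: by the same argument, `limsup I_1(σ, T) / T` for the shift `a` tends to zero as
  `a → ∞`. By inclusion and exclusion, the zeta-function is the Dirichlet polynomial over `0 ≤ m_j < N` minus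
  a signed sum of the zeta-functions with the shifts `a + N ∑_{j ∈ S} w_j`, `S ≠ ∅`.
* The lower bound on the line `r - d/2`: if the bound of Q1 holds, then the values `|n·w| ≠ 0`, `n ∈ ℤ^r`, are
  at least a power of `1/|n|`. Otherwise (by the pigeonhole principle, modulo the multiples of `n`) there would
  be too many pairs `(m, m')` with `m_j, m'_j ≤ 1/x` and `|m·w - m'·w| ≤ 1/(8R)`, `R = x^{-d}`, and the integral
  of `|K|²` over `[0, R]` would be too large. So the integral of `|K|²` over `[R, 2R]` is asymptotically `R`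
  times the weighted number of the pairs `(m, m')` with `m·w = m'·w`, which has the exact order `x^{-(2r-d)}`.
-/

set_option autoImplicit false

open Filter Topology Asymptotics MeasureTheory

namespace Pool.Agent.Results.MP_047497_nt.MeanValue

/-- The Dirichlet series `∑ (a + m₁ w₁ + ⋯ + m_r w_r)^{-s}` over `m ∈ ℕ^r` (with `0 ∈ ℕ`). -/
noncomputable def barnesSeries (r : ℕ) (a : ℝ) (w : Fin r → ℝ) (s : ℂ) : ℂ :=
  ∑' m : Fin r → ℕ, ((a + ∑ i, (m i : ℝ) * w i : ℝ) : ℂ) ^ (-s)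

/-- `Z` is the Barnes multiple zeta-function `ζ_r(·; a, w)`: it is holomorphic on the complex plane
except for possible simple poles at `1, …, r`, and for `Re s > r` it is given by the (summable)
Dirichlet series. -/
structure IsBarnesZeta (r : ℕ) (a : ℝ) (w : Fin r → ℝ) (Z : ℂ → ℂ) : Prop where
  holomorphic : ∀ s : ℂ, (∀ j : ℕ, 1 ≤ j → j ≤ r → s ≠ j) → DifferentiableAt ℂ Z s
  simple_pole : ∀ j : ℕ, 1 ≤ j → j ≤ r →
    ∃ c : ℂ, Tendsto (fun s : ℂ => (s - j) * Z s) (𝓝[≠] (j : ℂ)) (𝓝 c)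
  summable : ∀ s : ℂ, (r : ℝ) < s.re →
    Summable fun m : Fin r → ℕ => ((a + ∑ i, (m i : ℝ) * w i : ℝ) : ℂ) ^ (-s)
  series : ∀ s : ℂ, (r : ℝ) < s.re → Z s = barnesSeries r a w s

/-- The mean square `I_1(σ, T) = ∫_1^T |Z(σ + it)|² dt`. -/
noncomputable def meanSquare (Z : ℂ → ℂ) (σ T : ℝ) : ℝ :=
  ∫ t in (1 : ℝ)..T, ‖Z ((σ : ℂ) + (t : ℂ) * Complex.I)‖ ^ 2

/-- The dimension `d` of the `ℚ`-vector space spanned by the weights. -/
noncomputable def weightDim (r : ℕ) (w : Fin r → ℝ) : ℕ :=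
  Module.finrank ℚ (Submodule.span ℚ (Set.range w))

open Classical in
/-- The terms of the series `c(σ)`: `(a + m·w)^{-2σ}` for the pairs `(m, m')` with `m·w = m'·w`. -/
noncomputable def diagonalTerm (r : ℕ) (a : ℝ) (w : Fin r → ℝ) (σ : ℝ)
    (p : (Fin r → ℕ) × (Fin r → ℕ)) : ℝ :=
  if ∑ i, (p.1 i : ℝ) * w i = ∑ i, (p.2 i : ℝ) * w i then
    (a + ∑ i, (p.1 i : ℝ) * w i) ^ (-(2 * σ)) else 0

/-- The mean value theorem for the weights `w` to the right of `σ₀`: for all shifts `a > 0` and all `σ > σ₀`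
the series `c(σ)` converges, `c(σ) > 0`, and `I_1(σ, T) / T → c(σ)`. -/
def MeanValueTheorem (r : ℕ) (w : Fin r → ℝ) (σ₀ : ℝ) : Prop :=
  ∀ a : ℝ, 0 < a → ∀ Z : ℂ → ℂ, IsBarnesZeta r a w Z → ∀ σ : ℝ, σ₀ < σ →
    Summable (diagonalTerm r a w σ) ∧ 0 < ∑' p, diagonalTerm r a w σ p ∧
    Tendsto (fun T : ℝ => meanSquare Z σ T / T) atTop (𝓝 (∑' p, diagonalTerm r a w σ p))

/-- The weak bound: for at least one shift `a > 0` we have `I_1(σ₀, T) = O(T^{1+ε})` for all `ε > 0`. -/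
def WeakBound (r : ℕ) (w : Fin r → ℝ) (σ₀ : ℝ) : Prop :=
  ∃ a : ℝ, 0 < a ∧ ∃ Z : ℂ → ℂ, IsBarnesZeta r a w Z ∧ ∀ ε : ℝ, 0 < ε →
    (fun T : ℝ => meanSquare Z σ₀ T) =O[atTop] fun T : ℝ => T ^ (1 + ε)

/-- The strong bound: for all shifts `a > 0`, all `σ ≥ σ₀` and all `ε > 0` we have
`I_1(σ, T) = O(T^{1+ε})`. For `σ₀ = r - d/2` this is Q1 for `k = 1` and the weights `w`. -/
def StrongBound (r : ℕ) (w : Fin r → ℝ) (σ₀ : ℝ) : Prop :=
  ∀ a : ℝ, 0 < a → ∀ Z : ℂ → ℂ, IsBarnesZeta r a w Z → ∀ σ : ℝ, σ₀ ≤ σ → ∀ ε : ℝ, 0 < ε →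
    (fun T : ℝ => meanSquare Z σ T) =O[atTop] fun T : ℝ => T ^ (1 + ε)

/-- The number `r - d/2`. -/
noncomputable def edge (r : ℕ) (w : Fin r → ℝ) : ℝ := (r : ℝ) - (weightDim r w : ℝ) / 2

/-- The lower bound on the line `r - d/2`: for all shifts `a > 0` we have `T log T = O(I_1(r - d/2, T))`. -/
def EdgeLower (r : ℕ) (w : Fin r → ℝ) : Prop :=
  ∀ a : ℝ, 0 < a → ∀ Z : ℂ → ℂ, IsBarnesZeta r a w Z →
    (fun T : ℝ => T * Real.log T) =O[atTop] fun T : ℝ => meanSquare Z (edge r w) T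

theorem term_eq {r : ℕ} {a : ℝ} {w : Fin r → ℝ} (ha : 0 < a) (hw : ∀ i, 0 < w i) (σ : ℝ) :
    Pool.Agent.H312.Eq.dgt a w σ = diagonalTerm r a w σ := by
  funext p
  unfold Pool.Agent.H312.Eq.dgt diagonalTerm
  have h1 : 0 < Pool.Agent.H131R5.BZ.lam a w p.1 := Pool.Agent.H131R5.BZ.lam_pos ha hw p.1
  by_cases h : ∑ i, (p.1 i : ℝ) * w i = ∑ i, (p.2 i : ℝ) * w i
  · have h2 : Pool.Agent.H131R5.BZ.lam a w p.1 = Pool.Agent.H131R5.BZ.lam a w p.2 := by
      unfold Pool.Agent.H131R5.BZ.lam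
      rw [h]
    rw [if_pos h, if_pos h2, ← h2, ← Real.rpow_add h1]
    have e1 : -σ + -σ = -(2 * σ) := by ring
    rw [e1]
    rfl
  · have h2 : ¬ Pool.Agent.H131R5.BZ.lam a w p.1 = Pool.Agent.H131R5.BZ.lam a w p.2 := by
      unfold Pool.Agent.H131R5.BZ.lam
      intro h3
      exact h (by linarith)
    rw [if_neg h, if_neg h2]

theorem exists_zeta (r : ℕ) (a : ℝ) (w : Fin r → ℝ) (ha : 0 < a) (hw : ∀ i, 0 < w i) :
    ∃ Z : ℂ → ℂ, IsBarnesZeta r a w Z := by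
  obtain ⟨c, hc⟩ := Pool.Agent.H131R5.BZ.exists_taylor a hw
  refine ⟨Pool.Agent.H131R5.BZ.FF a w c, ?_, ?_, ?_, ?_⟩
  · exact fun s hs => Pool.Agent.H131R5.BZ.FF_diff ha hw hc hs
  · exact fun j h1 h2 => Pool.Agent.Y930.Bz.FF_pole ha hw hc j h1 h2
  · exact fun s hs => (Pool.Agent.H131R5.BZ.FF_series ha hw hc hs).summable
  · exact fun s hs => (Pool.Agent.H131R5.BZ.FF_series ha hw hc hs).tsum_eq.symm

theorem zeta_facts {r : ℕ} {a : ℝ} {w : Fin r → ℝ} {Z : ℂ → ℂ} (hZ : IsBarnesZeta r a w Z) :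
    (∀ s ∈ Pool.Agent.Y930.Bz.Om r, DifferentiableAt ℂ Z s) ∧
    ∀ s : ℂ, (r : ℝ) < s.re → Z s =
      ∑' m : Fin r → ℕ, ((Pool.Agent.H131R5.BZ.lam a w m : ℝ) : ℂ) ^ (-s) :=
  ⟨fun s hs => hZ.holomorphic s hs, fun s hs => hZ.series s hs⟩

theorem half_le {r : ℕ} (hr : 1 ≤ r) {w : Fin r → ℝ} (hw : ∀ i, 0 < w i) : 1 / 2 ≤ edge r w := by
  have h1 : weightDim r w ≤ r := (Pool.Agent.H312.Eq.hd_span hw).1
  have h2 : (weightDim r w : ℝ) ≤ r := by exact_mod_cast h1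
  have h3 : (1 : ℝ) ≤ r := by exact_mod_cast hr
  unfold edge
  linarith

theorem of_weak {r : ℕ} {w : Fin r → ℝ} (hw : ∀ i, 0 < w i) {σ₀ : ℝ} (hσ₀ : 1 / 2 ≤ σ₀)
    (h : WeakBound r w σ₀) : StrongBound r w σ₀ ∧ MeanValueTheorem r w σ₀ := by
  obtain ⟨a, ha, Z, hZ, hI⟩ := h
  obtain ⟨h1, h2⟩ := zeta_facts hZ
  have hH := Pool.Agent.H312.Eq.res_of_ms ha hw h1 h2 hσ₀ hI
  refine ⟨fun a' ha' Z' hZ' σ hσ ε hε => ?_, fun a' ha' Z' hZ' σ hσ => ?_⟩
  · obtain ⟨h3, h4⟩ := zeta_facts hZ'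
    exact Pool.Agent.H312.Eq.ms_of_FT ha' hw h3 h4 hσ₀ hH hσ hε
  · obtain ⟨h3, h4⟩ := zeta_facts hZ'
    have h5 := Pool.Agent.H312.Eq.mean_half ha' hw h3 h4 hσ₀ hH hσ
    rw [term_eq ha' hw] at h5
    exact h5

theorem strong_of_mean {r : ℕ} {w : Fin r → ℝ} (hw : ∀ i, 0 < w i) {σ₀ : ℝ} (hσ₀ : 1 / 2 ≤ σ₀)
    (h : MeanValueTheorem r w σ₀) : StrongBound r w σ₀ := by
  obtain ⟨Z, hZ⟩ := exists_zeta r 1 w one_pos hw
  obtain ⟨h1, h2⟩ := zeta_facts hZ
  have hI : ∀ σ : ℝ, σ₀ < σ → ∀ ε : ℝ, 0 < ε →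
      (fun T : ℝ => meanSquare Z σ T) =O[atTop] fun T : ℝ => T ^ (1 + ε) := by
    intro σ hσ ε hε
    have h1 := (h 1 one_pos Z hZ σ hσ).2.2
    have h2 : (fun T : ℝ => meanSquare Z σ T / T) =O[atTop] fun _ : ℝ => (1 : ℝ) :=
      h1.isBigO_one ℝ
    have h3 := (isBigO_refl (fun T : ℝ => T) atTop).mul h2
    have h4 : (fun T : ℝ => T * (meanSquare Z σ T / T)) =ᶠ[atTop] fun T => meanSquare Z σ T := by
      filter_upwards [eventually_gt_atTop (0 : ℝ)] with T hT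
      field_simp
    have h5 : (fun T : ℝ => T * (1 : ℝ)) =O[atTop] fun T : ℝ => T ^ (1 + ε) := by
      refine IsBigO.of_bound 1 ?_
      filter_upwards [eventually_ge_atTop (1 : ℝ)] with T hT
      have hT0 : 0 < T := by linarith
      rw [Real.norm_of_nonneg (by positivity), Real.norm_of_nonneg (by positivity), mul_one, one_mul]
      calc T = T ^ (1 : ℝ) := (Real.rpow_one T).symm
        _ ≤ _ := Real.rpow_le_rpow_of_exponent_le hT (by linarith)
    exact (h3.trans h5).congr' h4 EventuallyEq.rfl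
  have hH := Pool.Agent.H312.Eq.FT_of_open one_pos hw h1 h2 hσ₀ hI
  intro a' ha' Z' hZ' σ hσ ε hε
  obtain ⟨h3, h4⟩ := zeta_facts hZ'
  exact Pool.Agent.H312.Eq.ms_of_FT ha' hw h3 h4 hσ₀ hH hσ hε

theorem weak_of_strong {r : ℕ} {w : Fin r → ℝ} (hw : ∀ i, 0 < w i) {σ₀ : ℝ}
    (h : StrongBound r w σ₀) : WeakBound r w σ₀ := by
  obtain ⟨Z, hZ⟩ := exists_zeta r 1 w one_pos hw
  exact ⟨1, one_pos, Z, hZ, h 1 one_pos Z hZ σ₀ le_rfl⟩

theorem edge_lower {r : ℕ} (hr : 1 ≤ r) {w : Fin r → ℝ} (hw : ∀ i, 0 < w i)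
    (h : StrongBound r w (edge r w)) : EdgeLower r w := by
  obtain ⟨a, ha, Z, hZ, hI⟩ := weak_of_strong hw h
  obtain ⟨h1, h2⟩ := zeta_facts hZ
  have hH := Pool.Agent.H312.Eq.res_of_ms ha hw h1 h2 (half_le hr hw) hI
  obtain ⟨c, τ, hc, hτ, hLD⟩ := Pool.Agent.H312.Eq.dio_of_edge_span hr hw hH
  intro a' ha' Z' hZ'
  obtain ⟨h3, h4⟩ := zeta_facts hZ'
  obtain ⟨hdr, c₁, C₁, hc₁, hC₁, hHD⟩ := Pool.Agent.H312.Eq.hd_span hw
  exact (Pool.Agent.H312.Eq.theta_gen hr ha' hw h3 h4 (d := weightDim r w) hdr hc hτ hLD hc₁ hC₁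
    hHD).2.1 _ rfl

/-- (1) For all `r ≥ 1`, all weights `w > 0` and all `σ₀ ≥ r - d/2` the following are equivalent: the weak
bound for `σ₀`, the strong bound for `σ₀`, the mean value theorem to the right of `σ₀`.
(2) For all `r ≥ 1` and all weights `w > 0`: the bound of Q1 for `k = 1` (this is the strong bound for
`σ₀ = r - d/2`) implies `T log T = O(I_1(r - d/2, T))`.
(3) The mean value theorem to the right of `r - d/2` holds if all ratios `w_i / w_j` are algebraic.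
(4) For every `d` and almost every `v ∈ ℝ^d` it holds for every `r ≥ 1` and all positive weights `w` with
the same rational span as `v`, and the dimension for these weights is `d`; moreover
`I_1(r - d/2, T) = O(T (log T)^{2+δ})` for all `δ > 0`. -/
theorem result :
    (∀ (r : ℕ) (a : ℝ) (w : Fin r → ℝ), 0 < a → (∀ i, 0 < w i) → ∃ Z : ℂ → ℂ, IsBarnesZeta r a w Z) ∧
    (∀ (r : ℕ) (w : Fin r → ℝ), 1 ≤ r → (∀ i, 0 < w i) →
      (∀ σ₀ : ℝ, edge r w ≤ σ₀ → (WeakBound r w σ₀ ↔ StrongBound r w σ₀) ∧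
        (StrongBound r w σ₀ ↔ MeanValueTheorem r w σ₀)) ∧
      (StrongBound r w (edge r w) → EdgeLower r w)) ∧
    (∀ (r : ℕ) (w : Fin r → ℝ), 1 ≤ r → (∀ i, 0 < w i) → (∀ i j, IsAlgebraic ℚ (w i / w j)) →
      MeanValueTheorem r w (edge r w)) ∧
    ∀ d : ℕ, ∀ᵐ v : Fin d → ℝ, ∀ (r : ℕ) (w : Fin r → ℝ), 1 ≤ r → (∀ i, 0 < w i) →
      Submodule.span ℚ (Set.range w) = Submodule.span ℚ (Set.range v) →
      weightDim r w = d ∧ MeanValueTheorem r w (edge r w) ∧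
      ∀ a : ℝ, 0 < a → ∀ Z : ℂ → ℂ, IsBarnesZeta r a w Z →
        ∀ δ : ℝ, 0 < δ → (fun T : ℝ => meanSquare Z (edge r w) T)
          =O[atTop] fun T : ℝ => T * (Real.log T) ^ (2 + δ) := by
  refine ⟨exists_zeta, fun r w hr hw => ⟨fun σ₀ hσ₀ => ?_, edge_lower hr hw⟩,
    fun r w hr hw halg => ?_, fun d => ?_⟩
  · have h1 : 1 / 2 ≤ σ₀ := (half_le hr hw).trans hσ₀
    exact ⟨⟨fun h => (of_weak hw h1 h).1, weak_of_strong hw⟩,
      ⟨fun h => (of_weak hw h1 (weak_of_strong hw h)).2, strong_of_mean hw h1⟩⟩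
  · refine (of_weak hw (half_le hr hw) ?_).2
    obtain ⟨Z, hZ⟩ := exists_zeta r 1 w one_pos hw
    refine ⟨1, one_pos, Z, hZ, fun ε hε => ?_⟩
    have hZ' : Pool.Agent.Results.MP_047497_nt.AlgebraicWeights.IsBarnesZeta r 1 w Z :=
      ⟨hZ.holomorphic, hZ.simple_pole, hZ.summable, hZ.series⟩
    have h1 := (Pool.Agent.Results.MP_047497_nt.AlgebraicWeights.result.2 r 1 w one_pos hw Z hZ').2.2
      halg
    have h2 := h1.2.2.1 hr (edge r w) le_rfl ε hε
    have h3 : ∀ T : ℝ, Pool.Agent.Results.MP_047497_nt.AlgebraicWeights.moment Z 1 (edge r w) T =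
        meanSquare Z (edge r w) T := by
      intro T
      unfold Pool.Agent.Results.MP_047497_nt.AlgebraicWeights.moment meanSquare
      rfl
    simp only [h3] at h2
    exact h2
  · filter_upwards [Pool.Agent.H312.Lb.ae_goodL d, Pool.Agent.Y616.BM.ae_indep d] with v hv hvi
    intro r w hr hw hspan
    have hdim : weightDim r w = d := by
      unfold weightDim
      rw [hspan, finrank_span_eq_card hvi]
      simp
    have h5 : ∀ a : ℝ, 0 < a → ∀ Z : ℂ → ℂ, IsBarnesZeta r a w Z → ∀ δ : ℝ, 0 < δ →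
        (fun T : ℝ => meanSquare Z (edge r w) T)
          =O[atTop] fun T : ℝ => T * (Real.log T) ^ (2 + δ) := by
      intro a ha Z hZ δ hδ
      obtain ⟨h1, h2⟩ := zeta_facts hZ
      unfold edge
      rw [hdim]
      exact (Pool.Agent.H312.Lb.ms_good hv hvi hr hw hspan ha h1 h2 hδ).1 rfl
    refine ⟨hdim, (of_weak hw (half_le hr hw) ?_).2, h5⟩
    obtain ⟨Z, hZ⟩ := exists_zeta r 1 w one_pos hw
    refine ⟨1, one_pos, Z, hZ, fun ε hε => ?_⟩
    refine (h5 1 one_pos Z hZ 1 one_pos).trans ?_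
    have h6 : (fun T : ℝ => (Real.log T) ^ ((2 : ℝ) + 1)) =O[atTop] fun T : ℝ => T ^ ε :=
      (isLittleO_log_rpow_rpow_atTop _ hε).isBigO
    have h7 := (isBigO_refl (fun T : ℝ => T) atTop).mul h6
    refine h7.trans_eventuallyEq ?_
    filter_upwards [eventually_gt_atTop (0 : ℝ)] with T hT
    rw [Real.rpow_add hT, Real.rpow_one]

end Pool.Agent.Results.MP_047497_nt.MeanValue
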